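import Pool.Agent.Helper27_QL.StmtApp3

/-!
# App3 modules `UB_exists`, `algB`, `fixedB`
-/

set_option autoImplicit false
set_option linter.unusedVariables false
open Matrix Polynomial MeasureTheory Set Filter Topology

namespace QL.H14

theorem goodB_symm {d : ℕ} {B : Matrix (Fin d) (Fin d) ℝ} (h : GoodB d B) : Bᵀ = B := by
  rcases h with h | ⟨_, h⟩
  · rw [h, transpose_one]
  · ext i j
    rw [transpose_apply, h, h]
    simp only [eq_comm]

theorem goodB_sq {d : ℕ} {B : Matrix (Fin d) (Fin d) ℝ} (h : GoodB d B) : B * B = 1 := by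
  rcases h with h | ⟨hd, h⟩
  · rw [h, one_mul]
  · subst hd
    ext i j
    rw [mul_apply, Fin.sum_univ_two, h, h, h, h]
    fin_cases i <;> fin_cases j <;> simp

theorem goodB_det {d : ℕ} {B : Matrix (Fin d) (Fin d) ℝ} (h : GoodB d B) : B.det ≠ 0 := by
  intro h0
  have h1 := congrArg Matrix.det (goodB_sq h)
  rw [Matrix.det_mul, h0, zero_mul, Matrix.det_one] at h1
  exact zero_ne_one h1

theorem symm_swap {d : ℕ} {B : Matrix (Fin d) (Fin d) ℝ} (h : Bᵀ = B) (v w : Fin d → ℝ) :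
    v ⬝ᵥ B *ᵥ w = w ⬝ᵥ B *ᵥ v := by
  rw [dotProduct_mulVec, dotProduct_comm, ← mulVec_transpose, h]

theorem uB_det {d : ℕ} (B : Matrix (Fin d) (Fin d) ℝ) (w : Fin d → ℝ) : (uB B w).det = 1 := by
  unfold uB
  rw [det_fromBlocks_one₁₁, det_fin_two]
  simp [mul_apply]

theorem uB_add {d : ℕ} {B : Matrix (Fin d) (Fin d) ℝ} (h : Bᵀ = B) (w w' : Fin d → ℝ) :
    uB B (w + w') = uB B w * uB B w' := by
  unfold uB
  rw [fromBlocks_multiply]
  have key2 := symm_swap h w' w
  have key : (∑ x, (B *ᵥ w) x * w' x) = w ⬝ᵥ B *ᵥ w' := by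
    rw [← key2, dotProduct_comm]
    rfl
  congr 1
  · ext i j
    simp [mul_apply, one_apply]
  · ext i j
    fin_cases j <;> simp [mul_apply, add_comm]
  · ext i j
    rw [Matrix.mul_one, Matrix.add_apply, mul_apply, Fin.sum_univ_two]
    fin_cases i <;> simp [mulVec_add]
    ring
  · ext i j
    rw [Matrix.add_apply, mul_apply, mul_apply, Fin.sum_univ_two]
    fin_cases i <;> fin_cases j <;> simp [mulVec_add, add_dotProduct, dotProduct_add]
    rw [key2, ← key]
    have : ∑ x, 2 * (B *ᵥ w) x * w' x = 2 * ∑ x, (B *ᵥ w) x * w' x := by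
      rw [Finset.mul_sum]
      exact Finset.sum_congr rfl fun _ _ => by ring
    rw [this]
    ring

theorem uB_zero {d : ℕ} (B : Matrix (Fin d) (Fin d) ℝ) : uB B 0 = 1 := by
  unfold uB
  rw [← fromBlocks_one]
  congr 1
  · ext i j
    simp
  · ext i j
    simp
  · ext i j
    fin_cases i <;> fin_cases j <;> simp

theorem UB_exists : QL.UB_existsStatement := by
  intro d B h
  refine ⟨{ pol := fromBlocks 1 (fun i j => if j = 0 then MvPolynomial.X i else 0)
              (fun i j => if i = 0 then 0 else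
                -2 * ∑ k, MvPolynomial.C (B j k) * MvPolynomial.X k)
              !![1, 0; -(∑ k, MvPolynomial.X k * ∑ j, MvPolynomial.C (B k j) * MvPolynomial.X j), 1]
            u := uB B
            spec := ?_
            det_one := uB_det B
            add := uB_add h }, fun w => rfl⟩
  intro w i j
  rcases i with i | i <;> rcases j with j | j
  · simp only [uB, fromBlocks_apply₁₁, one_apply]
    split_ifs <;> simp
  · fin_cases j <;> simp [uB]
  · fin_cases i <;> simp [uB, mulVec, dotProduct]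
  · fin_cases i <;> fin_cases j <;> simp [uB, mulVec, dotProduct]

/-! ### forms in blocks -/

theorem LL_blocks (d : ℕ) : LL d = fromBlocks 0 0 0 !![1, 0; 0, 0] := by
  ext i j
  rcases i with i | i <;> rcases j with j | j
  · simp [LL, LB, vecMulVec_apply]
  · simp [LL, LB, vecMulVec_apply]
  · simp [LL, LB, vecMulVec_apply]
  · fin_cases i <;> fin_cases j <;> simp [LL, LB, vecMulVec_apply]

theorem QL_blocks {d : ℕ} (B : Matrix (Fin d) (Fin d) ℝ) (b : ℝ) :
    QB B + b • LL d = fromBlocks B 0 0 !![b, 1/2; 1/2, 0] := by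
  rw [LL_blocks, QB, fromBlocks_smul, fromBlocks_add]
  congr 1
  · simp
  · simp
  · simp
  · ext i j
    fin_cases i <;> fin_cases j <;> simp

/-- the general diagonal block matrix -/
theorem quadB_diag {d : ℕ} (B o : Matrix (Fin d) (Fin d) ℝ) (K M : Matrix (Fin 2) (Fin 2) ℝ) :
    (fromBlocks o 0 0 K : M3 d)ᵀ * fromBlocks B 0 0 M * fromBlocks o 0 0 K =
      fromBlocks (oᵀ * B * o) 0 0 (Kᵀ * M * K) := by
  rw [fromBlocks_transpose, fromBlocks_multiply, fromBlocks_multiply]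
  simp

theorem LB_diag {d : ℕ} (o : Matrix (Fin d) (Fin d) ℝ) (K : Matrix (Fin 2) (Fin 2) ℝ) :
    LB d ᵥ* (fromBlocks o 0 0 K : M3 d) = Sum.elim (fun _ => (0 : ℝ)) (fun j => K 0 j) := by
  ext j
  rcases j with j | j
  · simp [LB, vecMul, dotProduct, Fintype.sum_sum_type]
  · simp [LB, vecMul, dotProduct, Fintype.sum_sum_type, Fin.sum_univ_two]

theorem av_blocks (d : ℕ) (b c : ℝ) :
    aB d c * vB d b = fromBlocks 1 0 0 !![c, 0; c⁻¹ * b, c⁻¹] := by
  rw [aB, vB, fromBlocks_multiply]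
  congr 1
  · simp
  · simp
  · simp
  · ext i j
    fin_cases i <;> fin_cases j <;> simp [mul_apply, Fin.sum_univ_two]

theorem smul_LB (d : ℕ) (c : ℝ) : c • LB d = Sum.elim (fun _ => (0 : ℝ)) ![c, 0] := by
  ext j
  rcases j with j | j
  · simp [LB]
  · fin_cases j <;> simp [LB]

theorem act_av {d : ℕ} (B : Matrix (Fin d) (Fin d) ℝ) (b c b' c' : ℝ) (hc : c ≠ 0) :
    act (qB B b' c') (aB d c * vB d b) = qB B (b' * c ^ 2 + b) (c' * c) := by
  rw [av_blocks]
  apply Prod.ext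
  · show (fromBlocks 1 0 0 !![c, 0; c⁻¹ * b, c⁻¹] : M3 d)ᵀ * (QB B + b' • LL d) *
      fromBlocks 1 0 0 !![c, 0; c⁻¹ * b, c⁻¹] = QB B + (b' * c ^ 2 + b) • LL d
    rw [QL_blocks, QL_blocks, quadB_diag]
    congr 1
    · simp
    · ext i j
      fin_cases i <;> fin_cases j <;> simp [mul_apply, Fin.sum_univ_two] <;> field_simp <;> ring
  · show (c' • LB d) ᵥ* (fromBlocks 1 0 0 !![c, 0; c⁻¹ * b, c⁻¹] : M3 d) = (c' * c) • LB d
    rw [smul_vecMul, LB_diag, smul_LB]
    ext j
    rcases j with j | j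
    · simp
    · fin_cases j <;> simp

theorem qB_zero_one {d : ℕ} (B : Matrix (Fin d) (Fin d) ℝ) : qB B 0 1 = pB B := by
  unfold qB pB
  rw [zero_smul, add_zero, one_smul]

theorem det_av (d : ℕ) (b c : ℝ) (hc : c ≠ 0) : (aB d c * vB d b).det = 1 := by
  rw [av_blocks, det_fromBlocks_zero₁₂, det_one, one_mul, det_fin_two]
  simp [hc]

theorem sum_wB {d : ℕ} {B : Matrix (Fin d) (Fin d) ℝ} (hs : Bᵀ = B) (w : Fin d → ℝ) (j : Fin d) :
    (∑ x, w x * B x j) = (B *ᵥ w) j := by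
  show _ = ∑ x, B j x * w x
  apply Finset.sum_congr rfl
  intro x _
  rw [mul_comm, ← congrFun (congrFun hs x) j, transpose_apply]

theorem uB_QB {d : ℕ} {B : Matrix (Fin d) (Fin d) ℝ} (hs : Bᵀ = B) (w : Fin d → ℝ) :
    (uB B w)ᵀ * QB B * uB B w = QB B := by
  unfold uB QB
  rw [fromBlocks_transpose, fromBlocks_multiply, fromBlocks_multiply]
  have key2 : (∑ x, (B *ᵥ w) x * w x) = w ⬝ᵥ B *ᵥ w := by
    rw [dotProduct_comm]
    rfl
  congr 1
  · ext i j
    simp [mul_apply, Fin.sum_univ_two]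
  · ext i j
    fin_cases j
    · simp [mul_apply, Fin.sum_univ_two]
      show (∑ x, B i x * w x) + _ = 0
      have : (∑ x, B i x * w x) = (B *ᵥ w) i := rfl
      rw [this]
      ring
    · simp [mul_apply, Fin.sum_univ_two]
  · ext i j
    fin_cases i
    · simp [mul_apply, Fin.sum_univ_two]
      rw [sum_wB hs]
      ring
    · simp [mul_apply, Fin.sum_univ_two]
  · ext i j
    fin_cases i <;> fin_cases j <;> simp [mul_apply, Fin.sum_univ_two]
    simp only [sum_wB hs]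
    rw [key2]
    ring

theorem LB_uB {d : ℕ} (B : Matrix (Fin d) (Fin d) ℝ) (w : Fin d → ℝ) :
    LB d ᵥ* uB B w = LB d := by
  ext j
  rcases j with j | j
  · simp [LB, uB, vecMul, dotProduct, Fintype.sum_sum_type]
  · fin_cases j <;> simp [LB, uB, vecMul, dotProduct, Fintype.sum_sum_type, Fin.sum_univ_two]

theorem act_vv' {ι : Type} [Fintype ι] (l : ι → ℝ) (g : Matrix ι ι ℝ) :
    gᵀ * vecMulVec l l * g = vecMulVec (l ᵥ* g) (l ᵥ* g) := by
  rw [Matrix.mul_vecMulVec, Matrix.vecMulVec_mul, Matrix.mulVec_transpose]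

theorem act_qB_of {d : ℕ} (B : Matrix (Fin d) (Fin d) ℝ) (g : M3 d)
    (h1 : gᵀ * QB B * g = QB B) (h2 : LB d ᵥ* g = LB d) (b c : ℝ) :
    act (qB B b c) g = qB B b c := by
  apply Prod.ext
  · show gᵀ * (QB B + b • LL d) * g = QB B + b • LL d
    rw [Matrix.mul_add, Matrix.add_mul, h1, Matrix.mul_smul, Matrix.smul_mul, LL, act_vv', h2]
  · show (c • LB d) ᵥ* g = c • LB d
    rw [smul_vecMul, h2]

theorem act_pB_iff {d : ℕ} (B : Matrix (Fin d) (Fin d) ℝ) (g : M3 d) :
    act (pB B) g = pB B ↔ gᵀ * QB B * g = QB B ∧ LB d ᵥ* g = LB d := by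
  constructor
  · intro h
    exact ⟨congrArg Prod.fst h, congrArg Prod.snd h⟩
  · rintro ⟨h1, h2⟩
    exact Prod.ext h1 h2

theorem oB_QB {d : ℕ} {B o : Matrix (Fin d) (Fin d) ℝ} (ho : oᵀ * B * o = B) :
    (oB o)ᵀ * QB B * oB o = QB B := by
  unfold oB QB
  rw [quadB_diag, ho]
  simp

theorem LB_oB {d : ℕ} (o : Matrix (Fin d) (Fin d) ℝ) : LB d ᵥ* oB o = LB d := by
  unfold oB
  rw [LB_diag]
  ext j
  rcases j with j | j
  · simp [LB]
  · fin_cases j <;> simp [LB]

theorem a_u {d : ℕ} (B : Matrix (Fin d) (Fin d) ℝ) (c : ℝ) (w : Fin d → ℝ) (hc : c ≠ 0) :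
    aB d c * uB B w = uB B (c⁻¹ • w) * aB d c := by
  unfold aB uB
  rw [fromBlocks_multiply, fromBlocks_multiply]
  congr 1
  · ext i j
    simp [mul_apply, Fin.sum_univ_two, one_apply]
  · ext i j
    fin_cases j <;> simp [mul_apply, Fin.sum_univ_two, one_apply]
    field_simp
  · ext i j
    fin_cases i <;> simp [mul_apply, vecMul, dotProduct, Fin.sum_univ_two, one_apply, mulVec_smul]
    ring
  · ext i j
    fin_cases i <;> fin_cases j <;> simp [mul_apply, Fin.sum_univ_two, mulVec_smul]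
    field_simp

theorem v_u {d : ℕ} (B : Matrix (Fin d) (Fin d) ℝ) (b : ℝ) (w : Fin d → ℝ) :
    vB d b * uB B w = uB B w * vB d b := by
  unfold vB uB
  rw [fromBlocks_multiply, fromBlocks_multiply]
  congr 1
  · ext i j
    simp [mul_apply, Fin.sum_univ_two, one_apply]
  · ext i j
    fin_cases j <;> simp [mul_apply, Fin.sum_univ_two, one_apply]
  · ext i j
    fin_cases i <;> simp [mul_apply, vecMul, dotProduct, Fin.sum_univ_two, one_apply]
  · ext i j
    fin_cases i <;> fin_cases j <;> simp [mul_apply, Fin.sum_univ_two]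
    ring

theorem v_v (d : ℕ) (b b' : ℝ) : vB d b * vB d b' = vB d (b + b') := by
  unfold vB
  rw [fromBlocks_multiply]
  congr 1
  · simp
  · simp
  · simp
  · ext i j
    fin_cases i <;> fin_cases j <;> simp [mul_apply, Fin.sum_univ_two]

theorem a_v (d : ℕ) (c b : ℝ) (hc : c ≠ 0) : aB d c * vB d b = vB d (b / c ^ 2) * aB d c := by
  unfold aB vB
  rw [fromBlocks_multiply, fromBlocks_multiply]
  congr 1
  · simp
  · simp
  · ext i j
    fin_cases i <;> fin_cases j <;> simp [mul_apply, Fin.sum_univ_two]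
    field_simp

theorem o_u {d : ℕ} {B o : Matrix (Fin d) (Fin d) ℝ} (hs : Bᵀ = B) (ho : oᵀ * B * o = B)
    (w : Fin d → ℝ) : oB o * uB B w = uB B (o *ᵥ w) * oB o := by
  have k1 : (B *ᵥ (o *ᵥ w)) ᵥ* o = B *ᵥ w := by
    rw [← mulVec_transpose, mulVec_mulVec, mulVec_mulVec, ho]
  have k2 : (o *ᵥ w) ⬝ᵥ B *ᵥ (o *ᵥ w) = w ⬝ᵥ B *ᵥ w := by
    have : (o *ᵥ w) ⬝ᵥ B *ᵥ (o *ᵥ w) = ((B *ᵥ (o *ᵥ w)) ᵥ* o) ⬝ᵥ w := by
      rw [← dotProduct_mulVec, dotProduct_comm]
    rw [this, k1, dotProduct_comm]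
  unfold oB uB
  rw [fromBlocks_multiply, fromBlocks_multiply]
  congr 1
  · simp
  · ext i j
    fin_cases j
    · simp [mul_apply]
      rfl
    · simp [mul_apply]
  · ext i j
    fin_cases i
    · simp [mul_apply]
    · have h2 := congrFun k1 j
      have h3 : (∑ x, (-2 * (B *ᵥ (o *ᵥ w)) x) * o x j) = -2 * (B *ᵥ w) j := by
        rw [← h2]
        show _ = -2 * ∑ x, (B *ᵥ (o *ᵥ w)) x * o x j
        rw [Finset.mul_sum]
        exact Finset.sum_congr rfl fun _ _ => by ring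
      simp only [Matrix.zero_mul, Matrix.one_mul, Matrix.mul_zero, add_zero, zero_add]
      exact h3.symm
  · rw [k2]
    simp

theorem algB : QL.algBStatement := by
  intro d B hs
  refine ⟨uB_add hs, uB_det B, uB_zero B, ?_, ?_, ?_, ?_, ?_, ?_, v_u B, v_v d, ?_, ?_, ?_, ?_, ?_⟩
  · intro w
    exact (act_pB_iff B _).2 ⟨uB_QB hs w, LB_uB B w⟩
  · intro b c hc
    rw [← qB_zero_one, act_av B b c 0 1 hc, zero_mul, zero_add, one_mul]
  · intro b c w
    exact act_qB_of B _ (uB_QB hs w) (LB_uB B w) b c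
  · intro c hc
    rw [aB, det_fromBlocks_zero₁₂, det_one, one_mul, det_fin_two]
    simp [hc]
  · intro b
    rw [vB, det_fromBlocks_zero₁₂, det_one, one_mul, det_fin_two]
    simp
  · intro c w hc
    exact a_u B c w hc
  · intro c b hc
    exact a_v d c b hc
  · intro o ho
    exact (act_pB_iff B _).2 ⟨oB_QB ho, LB_oB o⟩
  · intro o w ho _
    exact o_u hs ho w
  · intro o b c ho
    exact act_qB_of B _ (oB_QB ho) (LB_oB o) b c
  · intro b c b' c' hc
    have h1 := act_av B b c ((b' - b) / c ^ 2) (c' / c) hc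
    have e1 : (b' - b) / c ^ 2 * c ^ 2 + b = b' := by field_simp; ring
    have e2 : c' / c * c = c' := by field_simp
    rw [e1, e2] at h1
    have hdet := det_av d b c hc
    have hinv : (aB d c * vB d b) * (aB d c * vB d b)⁻¹ = 1 :=
      mul_nonsing_inv _ (by rw [hdet]; exact isUnit_one)
    rw [← h1]
    have act_act' : ∀ (q : W (I3 d)) (g h : M3 d), act (act q g) h = act q (g * h) := by
      intro q g h
      apply Prod.ext
      · show hᵀ * (gᵀ * q.1 * g) * h = (g * h)ᵀ * q.1 * (g * h)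
        rw [transpose_mul]
        simp only [Matrix.mul_assoc]
      · show (q.2 ᵥ* g) ᵥ* h = q.2 ᵥ* (g * h)
        rw [vecMul_vecMul]
    rw [act_act', hinv]
    apply Prod.ext
    · show (1 : M3 d)ᵀ * _ * 1 = _
      rw [transpose_one, Matrix.one_mul, Matrix.mul_one]
    · show _ ᵥ* (1 : M3 d) = _
      rw [vecMul_one]

end QL.H14
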