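import Pool.Agent.Helper14_QB.FixB
import Pool.Agent.Helper14_QL.Tubes

/-!
# App3 module `TLB_facts`
-/

set_option autoImplicit false
set_option linter.unusedVariables false
open Matrix Polynomial MeasureTheory Set Filter Topology

namespace QL.H14

theorem LB_ne (d : ℕ) : LB d ≠ 0 := by
  intro h
  have := congrFun h (Sum.inr 0)
  simp [LB] at this

/-- the pencil has rank at least two off the line `ℝ L²` -/
theorem hrkB {d : ℕ} (B : Matrix (Fin d) (Fin d) ℝ) (hB : B ≠ 0) (a b : ℝ) (ha : a ≠ 0) :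
    ¬ ∃ v v' : I3 d → ℝ, a • QB B + b • vecMulVec (LB d) (LB d) = vecMulVec v v' := by
  rintro ⟨v, v', h⟩
  apply hB
  -- entries
  have hzz : v (Sum.inr 1) * v' (Sum.inr 1) = 0 := by
    have := congrFun (congrFun h (Sum.inr 1)) (Sum.inr 1)
    simp [QB, LB, vecMulVec_apply] at this
    rcases this with h | h <;> rw [h] <;> ring
  have hsz : v (Sum.inr 0) * v' (Sum.inr 1) = a / 2 := by
    have := congrFun (congrFun h (Sum.inr 0)) (Sum.inr 1)
    simp [QB, LB, vecMulVec_apply] at this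
    rw [← this]
    ring
  have hzs : v (Sum.inr 1) * v' (Sum.inr 0) = a / 2 := by
    have := congrFun (congrFun h (Sum.inr 1)) (Sum.inr 0)
    simp [QB, LB, vecMulVec_apply] at this
    rw [← this]
    ring
  exfalso
  have h1 : (a / 2) * (a / 2) = 0 := by
    calc (a / 2) * (a / 2) = (v (Sum.inr 0) * v' (Sum.inr 1)) * (v (Sum.inr 1) * v' (Sum.inr 0)) := by
          rw [hsz, hzs]
      _ = (v (Sum.inr 1) * v' (Sum.inr 1)) * (v (Sum.inr 0) * v' (Sum.inr 0)) := by ring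
      _ = 0 := by rw [hzz, zero_mul]
  apply ha
  nlinarith

theorem uniqL_TLB (hp : QL.pencilStatement) {d : ℕ} (B : Matrix (Fin d) (Fin d) ℝ) (hB : B ≠ 0) :
    UniqL (TLB B) := by
  have h1 : UniqL ([tube1 (LB d)] : List (Tube (I3 d))) := uniq_tube1 (LB d) [] trivial
  exact uniq_tube2_pencil hp (QB B) (LB d) (LB_ne d) (hrkB B hB) _ h1 (by simp)

theorem FB_u {d : ℕ} {B : Matrix (Fin d) (Fin d) ℝ} (hs : Bᵀ = B) (w : Fin d → ℝ) :
    ∀ M ∈ FB B, (uB B w)ᵀ * M * uB B w = M := by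
  intro M hM
  obtain ⟨a, b, rfl⟩ := Submodule.mem_span_pair.1 hM
  simp only [Matrix.mul_add, Matrix.add_mul, Matrix.mul_smul, Matrix.smul_mul]
  rw [uB_QB hs, LL, act_vv', LB_uB]

theorem fix_TLB {d : ℕ} {B : Matrix (Fin d) (Fin d) ℝ} (hs : Bᵀ = B) (w : Fin d → ℝ) :
    ∀ T ∈ TLB B, ∀ v, T.Pi v = 0 → ract false T.k (uB B w) v = v := by
  intro T hT v hv
  simp only [TLB, List.mem_cons, List.not_mem_nil, or_false] at hT
  rcases hT with rfl | rfl
  · exact fix_tube2 (FB B) (uB B w) (uB_det B w) (FB_u hs w) v hv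
  · exact fix_tube1 (LB d) (uB B w) (uB_det B w) (LB_uB B w) v hv

theorem ns_TLB {d : ℕ} (B : Matrix (Fin d) (Fin d) ℝ) (g : M3 d) : g ∈ ns (TLB B) ↔ (g.det = 1 ∧
    (∀ w : I3 d → ℤ, w ≠ 0 → ¬ ∃ c : ℝ, iv w = c • (LB d ᵥ* g)) ∧
    (∀ R : Matrix (I3 d) (I3 d) ℤ, R ≠ 0 → ¬ ∃ a b : ℝ,
      im R = a • (gᵀ * QB B * g) + b • vecMulVec (LB d ᵥ* g) (LB d ᵥ* g))) := by
  have key : ∀ R : Matrix (I3 d) (I3 d) ℤ, (∃ M ∈ FB B, im R = gᵀ * M * g) ↔
      ∃ a b : ℝ, im R = a • (gᵀ * QB B * g) + b • vecMulVec (LB d ᵥ* g) (LB d ᵥ* g) := by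
    intro R
    constructor
    · rintro ⟨M, hM, h⟩
      obtain ⟨a, b, rfl⟩ := Submodule.mem_span_pair.1 hM
      refine ⟨a, b, ?_⟩
      rw [h]
      simp only [Matrix.mul_add, Matrix.add_mul, Matrix.mul_smul, Matrix.smul_mul]
      rw [LL, act_vv']
    · rintro ⟨a, b, h⟩
      refine ⟨a • QB B + b • LL d, Submodule.mem_span_pair.2 ⟨a, b, rfl⟩, ?_⟩
      rw [h]
      simp only [Matrix.mul_add, Matrix.add_mul, Matrix.mul_smul, Matrix.smul_mul]
      rw [LL, act_vv']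
  constructor
  · rintro ⟨hg, h⟩
    refine ⟨hg, ?_, ?_⟩
    · intro w hw hc
      exact h (tube1 (LB d)) (by simp [TLB]) ((sing_tube1 (LB d) g hg).2 ⟨w, hw, hc⟩)
    · intro R hR hc
      exact h (tube2 (FB B)) (by simp [TLB]) ((sing_tube2 (FB B) g hg).2 ⟨R, hR, (key R).2 hc⟩)
  · rintro ⟨hg, h1, h3⟩
    refine ⟨hg, ?_⟩
    intro T hT hS
    simp only [TLB, List.mem_cons, List.not_mem_nil, or_false] at hT
    rcases hT with rfl | rfl
    · obtain ⟨R, hR, hM⟩ := (sing_tube2 (FB B) g hg).1 hS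
      exact h3 R hR ((key R).1 hM)
    · obtain ⟨w, hw, hc⟩ := (sing_tube1 (LB d) g hg).1 hS
      exact h1 w hw hc

theorem goodB_ne {d : ℕ} (hd : 0 < d) {B : Matrix (Fin d) (Fin d) ℝ} (hB : GoodB d B) : B ≠ 0 := by
  intro h0
  have h1 := goodB_sq hB
  rw [h0, Matrix.zero_mul] at h1
  have h2 := congrFun (congrFun h1 ⟨0, hd⟩) ⟨0, hd⟩
  simp at h2

theorem TLB_facts (hp : QL.pencilStatement) : QL.TLB_factsStatement := by
  intro d hd B hB
  exact ⟨uniqL_TLB hp B (goodB_ne (by omega) hB), fix_TLB (goodB_symm hB), ns_TLB B⟩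

end QL.H14
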