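import Pool.Agent.Helper14_QB.FactsB

set_option autoImplicit false
set_option linter.unusedVariables false
open Matrix Polynomial MeasureTheory Set Filter Topology

namespace QL.H14

theorem LB_dot {d : ℕ} (u : I3 d → ℝ) : LB d ⬝ᵥ u = u (Sum.inr 0) := by
  simp [LB, dotProduct, Fintype.sum_sum_type, Fin.sum_univ_two]

theorem QB_bil {d : ℕ} (B : Matrix (Fin d) (Fin d) ℝ) (u u' : I3 d → ℝ) :
    u ⬝ᵥ QB B *ᵥ u' = (fun i => u (Sum.inl i)) ⬝ᵥ B *ᵥ (fun i => u' (Sum.inl i)) +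
      (u (Sum.inr 0) * u' (Sum.inr 1) + u (Sum.inr 1) * u' (Sum.inr 0)) / 2 := by
  simp only [QB, dotProduct, Matrix.mulVec, Fintype.sum_sum_type, Fin.sum_univ_two,
    Matrix.fromBlocks_apply₁₁, Matrix.fromBlocks_apply₁₂, Matrix.fromBlocks_apply₂₁,
    Matrix.fromBlocks_apply₂₂, Matrix.zero_apply, zero_mul, Finset.sum_const_zero, add_zero,
    zero_add]
  simp
  ring

theorem LL_bil {d : ℕ} (u u' : I3 d → ℝ) :
    u ⬝ᵥ LL d *ᵥ u' = u (Sum.inr 0) * u' (Sum.inr 0) := by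
  have e : LL d *ᵥ u' = (LB d ⬝ᵥ u') • LB d := by
    ext i
    show ∑ j, (LB d i * LB d j) * u' j = (∑ j, LB d j * u' j) * LB d i
    rw [Finset.sum_mul]
    apply Finset.sum_congr rfl
    intro j _
    ring
  rw [e, dotProduct_smul, LB_dot, dotProduct_comm, LB_dot, smul_eq_mul, mul_comm]

theorem qB_bil {d : ℕ} (B : Matrix (Fin d) (Fin d) ℝ) (b : ℝ) (u u' : I3 d → ℝ) :
    u ⬝ᵥ (QB B + b • LL d) *ᵥ u' = (fun i => u (Sum.inl i)) ⬝ᵥ B *ᵥ (fun i => u' (Sum.inl i)) +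
      (u (Sum.inr 0) * u' (Sum.inr 1) + u (Sum.inr 1) * u' (Sum.inr 0)) / 2 +
      b * (u (Sum.inr 0) * u' (Sum.inr 0)) := by
  rw [Matrix.add_mulVec, dotProduct_add, QB_bil, Matrix.smul_mulVec, dotProduct_smul, LL_bil,
    smul_eq_mul]

theorem val_qB {d : ℕ} (B : Matrix (Fin d) (Fin d) ℝ) (b c : ℝ) (u : I3 d → ℝ) :
    val (qB B b c) u = (u ⬝ᵥ QB B *ᵥ u + b * (LB d ⬝ᵥ u) ^ 2, c * (LB d ⬝ᵥ u)) := by
  apply Prod.ext
  · show u ⬝ᵥ (QB B + b • LL d) *ᵥ u = _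
    rw [Matrix.add_mulVec, dotProduct_add, Matrix.smul_mulVec, dotProduct_smul, LL_bil, LB_dot,
      smul_eq_mul, sq]
  · show (c • LB d) ⬝ᵥ u = _
    rw [smul_dotProduct, smul_eq_mul]

theorem det_one_inv {ι : Type} [Fintype ι] [DecidableEq ι] {g : Matrix ι ι ℝ} (hg : g.det = 1) :
    g * g⁻¹ = 1 := Matrix.mul_nonsing_inv _ (by rw [hg]; exact isUnit_one)

theorem vecMul_ne {ι : Type} [Fintype ι] [DecidableEq ι] {g : Matrix ι ι ℝ} (hg : g.det = 1)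
    {l : ι → ℝ} (hl : l ≠ 0) : l ᵥ* g ≠ 0 := by
  intro h
  apply hl
  have : (l ᵥ* g) ᵥ* g⁻¹ = 0 := by rw [h, Matrix.zero_vecMul]
  rwa [Matrix.vecMul_vecMul, det_one_inv hg, Matrix.vecMul_one] at this

theorem final1B (hdl : QL.dense_linStatement) {d : ℕ} (hd : 2 ≤ d)
    {B : Matrix (Fin d) (Fin d) ℝ} (hB : GoodB d B) (S : Set (ℝ × ℝ)) (hS : IsClosed S) (z : M3 d)
    (hz : z ∈ ns (TLB B)) (h : ∀ r : ℝ, (z, qB B r 1) ∈ DD S) : S = univ := by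
  obtain ⟨hdet, hz1, -⟩ := (ns_TLB B z).1 hz
  have hm : LB d ᵥ* z ≠ 0 := vecMul_ne hdet (LB_ne d)
  have hdn := hdl (LB d ᵥ* z) (LB d ᵥ* z) hm hz1 hm
  rw [Set.eq_univ_iff_forall]
  rintro ⟨X, Y⟩
  have hcl : IsClosed {t : ℝ | (X, t) ∈ S} := hS.preimage (by fun_prop)
  have hsub : {t : ℝ | ∃ v ∈ Prm (I3 d), (LB d ᵥ* z) ⬝ᵥ v ≠ 0 ∧ t = (LB d ᵥ* z) ⬝ᵥ v} ⊆
      {t : ℝ | (X, t) ∈ S} := by
    rintro t ⟨v, hv, hne, rfl⟩
    have e : (LB d ᵥ* z) ⬝ᵥ v = LB d ⬝ᵥ (z *ᵥ v) := by rw [Matrix.dotProduct_mulVec]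
    rw [e] at hne ⊢
    set u := z *ᵥ v with hu
    have h1 := h ((X - u ⬝ᵥ QB B *ᵥ u) / (LB d ⬝ᵥ u) ^ 2) v hv
    rw [val_qB] at h1
    have e2 : u ⬝ᵥ QB B *ᵥ u + (X - u ⬝ᵥ QB B *ᵥ u) / (LB d ⬝ᵥ u) ^ 2 * (LB d ⬝ᵥ u) ^ 2 = X := by
      field_simp
      ring
    have h2 : (u ⬝ᵥ QB B *ᵥ u + (X - u ⬝ᵥ QB B *ᵥ u) / (LB d ⬝ᵥ u) ^ 2 * (LB d ⬝ᵥ u) ^ 2,
        1 * (LB d ⬝ᵥ u)) ∈ S := h1
    rw [e2, one_mul] at h2
    exact h2
  have := hcl.closure_subset_iff.2 hsub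
  rw [hdn.closure_eq] at this
  exact this (Set.mem_univ Y)

theorem quad_conj {ι : Type} [Fintype ι] (z A : Matrix ι ι ℝ) (v w : ι → ℝ) :
    v ⬝ᵥ (zᵀ * A * z) *ᵥ w = (z *ᵥ v) ⬝ᵥ A *ᵥ (z *ᵥ w) := by
  rw [← Matrix.mulVec_mulVec, ← Matrix.mulVec_mulVec, Matrix.dotProduct_mulVec,
    Matrix.vecMul_transpose]

/-- a vector of the `y` space with nonzero value -/
theorem exists_y {d : ℕ} (hd : 2 ≤ d) {B : Matrix (Fin d) (Fin d) ℝ} (hB : GoodB d B) :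
    ∃ e : Fin d → ℝ, e ⬝ᵥ B *ᵥ e ≠ 0 := by
  rcases hB with h | ⟨hd', h⟩
  · have : 0 < d := by omega
    refine ⟨Pi.single ⟨0, this⟩ 1, ?_⟩
    rw [h, Matrix.one_mulVec]
    simp
  · subst hd'
    refine ⟨fun _ => 1, ?_⟩
    simp only [dotProduct, Matrix.mulVec, Fin.sum_univ_two, h]
    norm_num

theorem final2B (hop : QL.oppnStatement) {d : ℕ} (hd : 2 ≤ d)
    {B : Matrix (Fin d) (Fin d) ℝ} (hB : GoodB d B) (S : Set (ℝ × ℝ)) (hS : IsClosed S) (z : M3 d)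
    (hz : z ∈ ns (TLB B)) (β : ℝ)
    (h : ∀ l : ℝ, 0 < l → (z, qB B (β * (l ^ 2 - 1)) l) ∈ DD S) : S = univ := by
  obtain ⟨hdet, hz1, hz2⟩ := (ns_TLB B z).1 hz
  have hm : LB d ᵥ* z ≠ 0 := vecMul_ne hdet (LB_ne d)
  have hzz : z * z⁻¹ = 1 := det_one_inv hdet
  set A0 : Matrix (I3 d) (I3 d) ℝ := QB B + (-β) • LL d with hA0
  have hA0s : A0ᵀ = A0 := by
    have h1 : (QB B)ᵀ = QB B := by
      unfold QB
      rw [Matrix.fromBlocks_transpose, goodB_symm hB]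
      congr 1
      ext i j
      fin_cases i <;> fin_cases j <;> simp
    have h2 : (LL d)ᵀ = LL d := by
      unfold LL
      ext i j
      simp [Matrix.vecMulVec, mul_comm]
    rw [hA0, Matrix.transpose_add, Matrix.transpose_smul, h1, h2]
  have hzx : ∀ x : I3 d → ℝ, z *ᵥ (z⁻¹ *ᵥ x) = x := by
    intro x
    rw [Matrix.mulVec_mulVec, hzz, Matrix.one_mulVec]
  have hval : ∀ x : I3 d → ℝ, (z⁻¹ *ᵥ x) ⬝ᵥ (zᵀ * A0 * z) *ᵥ (z⁻¹ *ᵥ x) = x ⬝ᵥ A0 *ᵥ x := by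
    intro x
    rw [quad_conj, hzx]
  obtain ⟨e, he⟩ := exists_y hd hB
  -- three vectors
  let V0 : Fin 3 → I3 d → ℝ := ![Sum.elim e 0, Sum.elim 0 ![1, 0], Sum.elim 0 ![0, 1]]
  let V : Matrix (I3 d) (Fin 3) ℝ := z⁻¹ * (Matrix.of V0)ᵀ
  have hV : Vᵀ * (zᵀ * A0 * z) * V = (Matrix.of V0) * A0 * (Matrix.of V0)ᵀ := by
    have e1 : Vᵀ * (zᵀ * A0 * z) * V =
        (Matrix.of V0) * ((z * z⁻¹)ᵀ * A0 * (z * z⁻¹)) * (Matrix.of V0)ᵀ := by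
      show (z⁻¹ * (Matrix.of V0)ᵀ)ᵀ * (zᵀ * A0 * z) * (z⁻¹ * (Matrix.of V0)ᵀ) = _
      rw [Matrix.transpose_mul, Matrix.transpose_transpose, Matrix.transpose_mul]
      simp only [Matrix.mul_assoc]
    rw [e1, hzz, Matrix.transpose_one, Matrix.one_mul, Matrix.mul_one]
  have hent : ∀ i j, ((Matrix.of V0) * A0 * (Matrix.of V0)ᵀ) i j = V0 i ⬝ᵥ A0 *ᵥ V0 j := by
    intro i j
    rw [Matrix.mul_assoc]
    show (fun k => V0 i k) ⬝ᵥ (fun k => (A0 * (Matrix.of V0)ᵀ) k j) = _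
    congr 1
  have hdV : (Vᵀ * (zᵀ * A0 * z) * V).det ≠ 0 := by
    have hmat : Vᵀ * (zᵀ * A0 * z) * V = !![e ⬝ᵥ B *ᵥ e, 0, 0; 0, -β, 1/2; 0, 1/2, 0] := by
      ext i j
      rw [hV, hent, hA0, qB_bil]
      have z1 : (fun i : Fin d => (0 : ℝ)) ⬝ᵥ B *ᵥ e = 0 := zero_dotProduct _
      have z2 : e ⬝ᵥ B *ᵥ (fun i : Fin d => (0 : ℝ)) = 0 := by
        have : B *ᵥ (fun i : Fin d => (0 : ℝ)) = 0 := Matrix.mulVec_zero B
        rw [this, dotProduct_zero]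
      have z3 : (fun i : Fin d => (0 : ℝ)) ⬝ᵥ B *ᵥ (fun i : Fin d => (0 : ℝ)) = 0 :=
        zero_dotProduct _
      fin_cases i <;> fin_cases j <;> simp [V0, z1, z2, z3]
    rw [hmat, Matrix.det_fin_three]
    simp
    exact he
  have hpos : ∃ x, 0 < x ⬝ᵥ (zᵀ * A0 * z) *ᵥ x := by
    refine ⟨z⁻¹ *ᵥ (Sum.elim 0 ![1, β + 1]), ?_⟩
    rw [hval, hA0, qB_bil]
    have z3 : (fun i : Fin d => (0 : ℝ)) ⬝ᵥ B *ᵥ (fun i : Fin d => (0 : ℝ)) = 0 :=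
      zero_dotProduct _
    have h1 : (fun i : Fin d => (Sum.elim 0 ![1, β + 1] : I3 d → ℝ) (Sum.inl i)) =
      (fun i : Fin d => (0 : ℝ)) := rfl
    rw [h1, z3]
    show 0 < 0 + ((1:ℝ) * (β + 1) + (β + 1) * 1) / 2 + -β * (1 * 1)
    nlinarith
  have hneg : ∃ x, x ⬝ᵥ (zᵀ * A0 * z) *ᵥ x < 0 := by
    refine ⟨z⁻¹ *ᵥ (Sum.elim 0 ![1, β - 1]), ?_⟩
    rw [hval, hA0, qB_bil]
    have z3 : (fun i : Fin d => (0 : ℝ)) ⬝ᵥ B *ᵥ (fun i : Fin d => (0 : ℝ)) = 0 :=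
      zero_dotProduct _
    have h1 : (fun i : Fin d => (Sum.elim 0 ![1, β - 1] : I3 d → ℝ) (Sum.inl i)) =
      (fun i : Fin d => (0 : ℝ)) := rfl
    rw [h1, z3]
    show 0 + ((1:ℝ) * (β - 1) + (β - 1) * 1) / 2 + -β * (1 * 1) < 0
    nlinarith
  have hsymm : (zᵀ * A0 * z)ᵀ = zᵀ * A0 * z := by
    rw [Matrix.transpose_mul, Matrix.transpose_mul, Matrix.transpose_transpose, hA0s,
      Matrix.mul_assoc]
  have hirr : ∀ R : Matrix (I3 d) (I3 d) ℤ, R ≠ 0 → ¬ ∃ c : ℝ, im R = c • (zᵀ * A0 * z) := by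
    rintro R hR ⟨c, hc⟩
    apply hz2 R hR
    refine ⟨c, c * (-β), ?_⟩
    have e1 : zᵀ * LL d * z = vecMulVec (LB d ᵥ* z) (LB d ᵥ* z) := by
      unfold LL
      rw [Matrix.mul_vecMulVec, Matrix.vecMulVec_mul, Matrix.mulVec_transpose]
    rw [hc, hA0, Matrix.mul_add, Matrix.add_mul, Matrix.mul_smul, Matrix.smul_mul, e1, smul_add,
      smul_smul]
  have hdense := hop (zᵀ * A0 * z) hsymm ⟨V, hdV⟩ hpos hneg hirr (LB d ᵥ* z) hm hz1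
  -- values with nonzero second coordinate
  have hmem : ∀ X Y : ℝ, Y ≠ 0 → (X, Y) ∈ S := by
    intro X Y hY
    have hcl : IsClosed {t : ℝ | (t + β * Y ^ 2, Y) ∈ S} := hS.preimage (by fun_prop)
    have hsub : {t : ℝ | ∃ v ∈ Prm (I3 d), (LB d ᵥ* z) ⬝ᵥ v ≠ 0 ∧ t = v ⬝ᵥ (zᵀ * A0 * z) *ᵥ v} ⊆
        {t : ℝ | (t + β * Y ^ 2, Y) ∈ S} := by
      rintro t ⟨v, hv, hne, rfl⟩
      show (v ⬝ᵥ (zᵀ * A0 * z) *ᵥ v + β * Y ^ 2, Y) ∈ S
      rw [quad_conj]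
      have e : (LB d ᵥ* z) ⬝ᵥ v = LB d ⬝ᵥ (z *ᵥ v) := by rw [Matrix.dotProduct_mulVec]
      rw [e] at hne
      -- reduce to the case of equal signs
      have main : ∀ v' ∈ Prm (I3 d), 0 < Y / (LB d ⬝ᵥ (z *ᵥ v')) →
          ((z *ᵥ v') ⬝ᵥ A0 *ᵥ (z *ᵥ v') + β * Y ^ 2, Y) ∈ S := by
        intro v' hv' hpos'
        set u := z *ᵥ v' with hu
        have hu0 : LB d ⬝ᵥ u ≠ 0 := by
          intro h0
          rw [h0, div_zero] at hpos'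
          exact lt_irrefl _ hpos'
        have h1 := h (Y / (LB d ⬝ᵥ u)) hpos' v' hv'
        rw [val_qB] at h1
        have e2 : u ⬝ᵥ A0 *ᵥ u = u ⬝ᵥ QB B *ᵥ u + (-β) * (LB d ⬝ᵥ u) ^ 2 := by
          rw [hA0, Matrix.add_mulVec, dotProduct_add, Matrix.smul_mulVec, dotProduct_smul, LL_bil,
            LB_dot, smul_eq_mul, sq]
        have e3 : u ⬝ᵥ QB B *ᵥ u + β * ((Y / (LB d ⬝ᵥ u)) ^ 2 - 1) * (LB d ⬝ᵥ u) ^ 2 =
            u ⬝ᵥ A0 *ᵥ u + β * Y ^ 2 := by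
          rw [e2]
          field_simp
          ring
        have e4 : Y / (LB d ⬝ᵥ u) * (LB d ⬝ᵥ u) = Y := by field_simp
        have h2 : (u ⬝ᵥ QB B *ᵥ u + β * ((Y / (LB d ⬝ᵥ u)) ^ 2 - 1) * (LB d ⬝ᵥ u) ^ 2,
            Y / (LB d ⬝ᵥ u) * (LB d ⬝ᵥ u)) ∈ S := h1
        rw [e3, e4] at h2
        exact h2
      rcases lt_or_gt_of_ne (div_ne_zero hY hne) with hlt | hgt
      · have hv' : (-v) ∈ Prm (I3 d) := by
          obtain ⟨w, hw, hwv⟩ := hv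
          refine ⟨-w, ?_, ?_⟩
          · rw [← hw]
            apply dvd_antisymm_of_normalize_eq Finset.normalize_gcd Finset.normalize_gcd
            · exact Finset.dvd_gcd fun i hi => by
                have := Finset.gcd_dvd (f := -w) hi
                rwa [Pi.neg_apply, dvd_neg] at this
            · exact Finset.dvd_gcd fun i hi => by
                have := Finset.gcd_dvd (f := w) hi
                rwa [Pi.neg_apply, dvd_neg]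
          · intro i
            simp [hwv i]
        have h5 := main (-v) hv' (by
          rw [Matrix.mulVec_neg, dotProduct_neg, div_neg]
          linarith)
        rw [Matrix.mulVec_neg, Matrix.mulVec_neg, dotProduct_neg, neg_dotProduct, neg_neg] at h5
        exact h5
      · exact main v hv hgt
    have h6 := hcl.closure_subset_iff.2 hsub
    rw [hdense.closure_eq] at h6
    have h7 := h6 (Set.mem_univ (X - β * Y ^ 2))
    have h8 : (X - β * Y ^ 2 + β * Y ^ 2, Y) ∈ S := h7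
    rwa [sub_add_cancel] at h8
  rw [Set.eq_univ_iff_forall]
  rintro ⟨X, Y⟩
  have hcl : IsClosed {t : ℝ | (X, t) ∈ S} := hS.preimage (by fun_prop)
  have hsub : {t : ℝ | t ≠ 0} ⊆ {t : ℝ | (X, t) ∈ S} := fun t ht => hmem X t ht
  have h6 := hcl.closure_subset_iff.2 hsub
  have h9 : Dense {t : ℝ | t ≠ 0} := dense_compl_singleton 0
  rw [h9.closure_eq] at h6
  exact h6 (Set.mem_univ Y)

theorem finalB (hdl : QL.dense_linStatement) (hop : QL.oppnStatement) : QL.finalBStatement := by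
  intro d hd B hB S hS z hz h
  rcases h with h | ⟨β, h⟩
  · exact final1B hdl hd hB S hS z hz h
  · exact final2B hop hd hB S hS z hz β h

end QL.H14
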