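import Pool.Agent.Helper14_QB.AlgB

/-!
# App3 modules `fixedB`, `fix2B`
-/

set_option autoImplicit false
set_option linter.unusedVariables false
open Matrix Polynomial MeasureTheory Set Filter Topology

namespace QL.H14

theorem mul_uB_inl {d : ℕ} (B : Matrix (Fin d) (Fin d) ℝ) (M : M3 d) (w : Fin d → ℝ) (x : I3 d)
    (j : Fin d) : (M * uB B w) x (Sum.inl j) =
      M x (Sum.inl j) + M x (Sum.inr 1) * (-2 * (B *ᵥ w) j) := by
  simp [mul_apply, Fintype.sum_sum_type, Fin.sum_univ_two, uB, one_apply]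

theorem mul_uB_s {d : ℕ} (B : Matrix (Fin d) (Fin d) ℝ) (M : M3 d) (w : Fin d → ℝ) (x : I3 d) :
    (M * uB B w) x (Sum.inr 0) =
      M x (Sum.inr 0) + (∑ i, M x (Sum.inl i) * w i) - M x (Sum.inr 1) * (w ⬝ᵥ B *ᵥ w) := by
  simp [mul_apply, Fintype.sum_sum_type, Fin.sum_univ_two, uB, one_apply]
  ring

theorem mul_uB_z {d : ℕ} (B : Matrix (Fin d) (Fin d) ℝ) (M : M3 d) (w : Fin d → ℝ) (x : I3 d) :
    (M * uB B w) x (Sum.inr 1) = M x (Sum.inr 1) := by
  simp [mul_apply, Fintype.sum_sum_type, Fin.sum_univ_two, uB, one_apply]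

theorem tr_mul_uB {d : ℕ} (B : Matrix (Fin d) (Fin d) ℝ) (N : M3 d) (w : Fin d → ℝ) (x y : I3 d) :
    ((uB B w)ᵀ * N) x y = (Nᵀ * uB B w) y x := by
  rw [← transpose_apply (Nᵀ * uB B w), transpose_mul, transpose_transpose]

theorem sum_sgl {d : ℕ} (f : Fin d → ℝ) (k : Fin d) :
    (∑ i, f i * (Pi.single k 1 : Fin d → ℝ) i) = f k := by
  rw [Finset.sum_eq_single k]
  · simp
  · intro b _ hb
    simp [hb]
  · intro h
    exact absurd (Finset.mem_univ k) h

/-- fixed covectors -/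
theorem fixv_main {d : ℕ} (hd : 0 < d) {B : Matrix (Fin d) (Fin d) ℝ} (hB : GoodB d B)
    (l : I3 d → ℝ) (h : ∀ w, l ᵥ* uB B w = l) : ∃ c : ℝ, l = c • LB d := by
  have hz : l (Sum.inr 1) = 0 := by
    have h1 := congrFun (h (B *ᵥ Pi.single ⟨0, hd⟩ 1)) (Sum.inl ⟨0, hd⟩)
    have e : B *ᵥ (B *ᵥ Pi.single (⟨0, hd⟩ : Fin d) (1 : ℝ)) = Pi.single ⟨0, hd⟩ 1 := by
      rw [mulVec_mulVec, goodB_sq hB, one_mulVec]
    simp only [vecMul, dotProduct, Fintype.sum_sum_type, Fin.sum_univ_two, uB,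
      fromBlocks_apply₁₁, fromBlocks_apply₂₁] at h1
    rw [e] at h1
    simp [one_apply] at h1
    exact h1
  have hy : ∀ i, l (Sum.inl i) = 0 := by
    intro i
    have h1 := congrFun (h (Pi.single i 1)) (Sum.inr 0)
    simp only [vecMul, dotProduct, Fintype.sum_sum_type, Fin.sum_univ_two, uB,
      fromBlocks_apply₁₂, fromBlocks_apply₂₂] at h1
    rw [hz] at h1
    simp [sum_sgl] at h1
    exact h1
  refine ⟨l (Sum.inr 0), ?_⟩
  ext j
  rcases j with j | j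
  · simp [LB, hy]
  · fin_cases j <;> simp [LB, hz]

/-- fixed bilinear forms -/
theorem fix2_main {d : ℕ} (hd : 0 < d) {B : Matrix (Fin d) (Fin d) ℝ} (hB : GoodB d B)
    (M : M3 d) (h : ∀ w, (uB B w)ᵀ * M * uB B w = M) :
    ∃ (a b : ℝ) (η : Fin d → ℝ), M = a • QB B + b • LL d +
      (vecMulVec (LB d) (Sum.elim η 0) - vecMulVec (Sum.elim η 0) (LB d)) := by
  have hs := goodB_symm hB
  have e1 : ∀ w x j, (((uB B w)ᵀ * M) * uB B w) x (Sum.inl j) =
      ((uB B w)ᵀ * M) x (Sum.inl j) + ((uB B w)ᵀ * M) x (Sum.inr 1) * (-2 * (B *ᵥ w) j) :=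
    fun w x j => mul_uB_inl B _ w x j
  have e2 : ∀ w x, (((uB B w)ᵀ * M) * uB B w) x (Sum.inr 0) =
      ((uB B w)ᵀ * M) x (Sum.inr 0) + (∑ i, ((uB B w)ᵀ * M) x (Sum.inl i) * w i) -
        ((uB B w)ᵀ * M) x (Sum.inr 1) * (w ⬝ᵥ B *ᵥ w) := fun w x => mul_uB_s B _ w x
  have f1 : ∀ w i y, ((uB B w)ᵀ * M) (Sum.inl i) y =
      M (Sum.inl i) y + M (Sum.inr 1) y * (-2 * (B *ᵥ w) i) := by
    intro w i y
    rw [tr_mul_uB, mul_uB_inl]
    rfl
  have f2 : ∀ w y, ((uB B w)ᵀ * M) (Sum.inr 0) y =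
      M (Sum.inr 0) y + (∑ i, M (Sum.inl i) y * w i) - M (Sum.inr 1) y * (w ⬝ᵥ B *ᵥ w) := by
    intro w y
    rw [tr_mul_uB, mul_uB_s]
    rfl
  have f3 : ∀ w y, ((uB B w)ᵀ * M) (Sum.inr 1) y = M (Sum.inr 1) y := by
    intro w y
    rw [tr_mul_uB, mul_uB_z]
    rfl
  have hP : ∀ w x y, (((uB B w)ᵀ * M) * uB B w) x y = M x y := fun w x y => by rw [h w]
  have hbb : B *ᵥ (B *ᵥ Pi.single (⟨0, hd⟩ : Fin d) (1 : ℝ)) = Pi.single ⟨0, hd⟩ 1 := by
    rw [mulVec_mulVec, goodB_sq hB, one_mulVec]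
  -- zz entry
  have gz : M (Sum.inr 1) (Sum.inr 1) = 0 := by
    have h1 := hP (B *ᵥ Pi.single ⟨0, hd⟩ 1) (Sum.inr 1) (Sum.inl ⟨0, hd⟩)
    rw [e1, f3, f3, hbb, Pi.single_eq_same] at h1
    linarith
  -- zy entries
  have gzy : ∀ i, M (Sum.inr 1) (Sum.inl i) = 0 := by
    intro i
    have h1 := hP (Pi.single i 1) (Sum.inr 1) (Sum.inr 0)
    rw [e2] at h1
    simp only [f3] at h1
    rw [gz] at h1
    simp [sum_sgl] at h1
    exact h1
  have gyz : ∀ i, M (Sum.inl i) (Sum.inr 1) = 0 := by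
    intro i
    have h1 := hP (Pi.single i 1) (Sum.inr 0) (Sum.inr 1)
    rw [mul_uB_z, f2, gz] at h1
    simp [sum_sgl] at h1
    exact h1
  -- yy entries
  have gyy : ∀ i k, M (Sum.inl i) (Sum.inl k) = 2 * M (Sum.inr 1) (Sum.inr 0) * B i k := by
    intro i k
    have h1 := hP (Pi.single k 1) (Sum.inl i) (Sum.inr 0)
    rw [e2] at h1
    simp only [f1] at h1
    rw [gyz, gz] at h1
    simp [gzy, sum_sgl] at h1
    linarith
  have gyy' : ∀ i k, M (Sum.inl k) (Sum.inl i) = 2 * M (Sum.inr 0) (Sum.inr 1) * B i k := by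
    intro i k
    have h1 := hP (Pi.single k 1) (Sum.inr 0) (Sum.inl i)
    rw [e1] at h1
    simp only [f2] at h1
    rw [gz] at h1
    simp [gzy, gyz, sum_sgl] at h1
    linarith
  have gsym : ∀ i k, B i k = B k i := by
    intro i k
    have := congrFun (congrFun hs k) i
    rw [transpose_apply] at this
    exact this
  have gne : ∃ i k, B i k ≠ 0 := by
    by_contra hcon
    push Not at hcon
    have h0 : B = 0 := by
      ext i k
      exact hcon i k
    have h1 := goodB_sq hB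
    rw [h0, Matrix.zero_mul] at h1
    have h2 := congrFun (congrFun h1 ⟨0, hd⟩) ⟨0, hd⟩
    simp at h2
  have gb : M (Sum.inr 1) (Sum.inr 0) = M (Sum.inr 0) (Sum.inr 1) := by
    obtain ⟨i, k, hik⟩ := gne
    have h1 := gyy i k
    have h2 := gyy' k i
    rw [h1, gsym k i] at h2
    have h3 := mul_right_cancel₀ hik h2
    linarith
  -- ss entry
  have gss : ∀ k, M (Sum.inl k) (Sum.inr 0) = - M (Sum.inr 0) (Sum.inl k) := by
    intro k
    have h1 := hP (Pi.single k 1) (Sum.inr 0) (Sum.inr 0)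
    rw [e2] at h1
    simp only [f2] at h1
    simp [gzy, gyz, gz, gyy, gb, sum_sgl] at h1
    linarith
  refine ⟨2 * M (Sum.inr 0) (Sum.inr 1), M (Sum.inr 0) (Sum.inr 0),
    fun k => M (Sum.inr 0) (Sum.inl k), ?_⟩
  rw [LL_blocks, QB]
  ext x y
  rcases x with x | x <;> rcases y with y | y
  · simp [LB, vecMulVec_apply, gyy, gb]
  · fin_cases y <;> simp [LB, vecMulVec_apply, gyz, gss]
  · fin_cases x <;> simp [LB, vecMulVec_apply, gzy]
  · fin_cases x <;> fin_cases y <;> simp [LB, vecMulVec_apply, gz, gb] <;> ring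

theorem fix2B : QL.fix2BStatement := by
  intro d hd B hB
  exact ⟨fun M hM => fix2_main (by omega) hB M hM, fun l hl => fixv_main (by omega) hB l hl⟩

theorem det_pencil {d : ℕ} (B : Matrix (Fin d) (Fin d) ℝ) (a b : ℝ) :
    (a • QB B + b • LL d).det = a ^ (d + 2) * (QB B).det := by
  have h1 : a • QB B + b • LL d = fromBlocks (a • B) 0 0 !![b, a/2; a/2, 0] := by
    rw [LL_blocks, QB, fromBlocks_smul, fromBlocks_smul, fromBlocks_add]
    congr 1
    · simp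
    · simp
    · simp
    · ext i j
      fin_cases i <;> fin_cases j <;> simp <;> ring
  rw [h1, QB, det_fromBlocks_zero₁₂, det_fromBlocks_zero₁₂, det_fin_two, det_fin_two, det_smul]
  simp
  ring

theorem det_QB {d : ℕ} {B : Matrix (Fin d) (Fin d) ℝ} (hB : GoodB d B) : (QB B).det ≠ 0 := by
  rw [QB, det_fromBlocks_zero₁₂, det_fin_two]
  simp
  exact goodB_det hB

theorem QB_symm {d : ℕ} {B : Matrix (Fin d) (Fin d) ℝ} (hs : Bᵀ = B) : (QB B)ᵀ = QB B := by
  unfold QB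
  rw [fromBlocks_transpose, hs]
  congr 1
  ext i j
  fin_cases i <;> fin_cases j <;> simp

theorem LL_symm (d : ℕ) : (LL d)ᵀ = LL d := by
  ext i j
  simp [LL, vecMulVec_apply, mul_comm]

theorem fixedB : QL.fixedBStatement := by
  intro d hd B hB
  have hs := goodB_symm hB
  refine ⟨?_, det_pencil B, det_QB hB, QB_symm hs⟩
  intro q hq hf
  obtain ⟨a, b, η, hM⟩ := fix2_main (by omega) hB q.1 (fun w => congrArg Prod.fst (hf w))
  obtain ⟨c, hc⟩ := fixv_main (by omega) hB q.2 (fun w => congrArg Prod.snd (hf w))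
  have hη : ∀ k, η k = 0 := by
    intro k
    have h1 := congrFun (congrFun hq (Sum.inr 0)) (Sum.inl k)
    rw [hM, LL_blocks, QB] at h1
    simp [LB, vecMulVec_apply] at h1
    linarith
  have hη' : η = 0 := funext hη
  refine ⟨a, b, c, Prod.ext ?_ hc⟩
  rw [hM, hη']
  ext x y
  rcases x with x | x <;> rcases y with y | y <;> simp [LB, vecMulVec_apply]

end QL.H14
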